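import Pool.Agent.W564.SC.Defs

/-!
# Project SC, part EX1: chain mixing from dense periodic points and connectedness
-/

open Set Metric Filter Topology

universe w

namespace Pool.Agent.W366.SC

open Pool.Agent.W564.SC

/-- `δ`-chains of length `n` -/
inductive Ch {Y : Type w} [MetricSpace Y] (h : Y → Y) (δ : ℝ) : ℕ → Y → Y → Prop
  | zero (p : Y) : Ch h δ 0 p p
  | succ {n : ℕ} {p q r : Y} : Ch h δ n p q → dist (h q) r < δ → Ch h δ (n + 1) p r

section

variable {Y : Type w} [MetricSpace Y] {h : Y → Y} {δ : ℝ}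

theorem Ch.trans {n m : ℕ} {p q r : Y} (h1 : Ch h δ n p q) (h2 : Ch h δ m q r) :
    Ch h δ (n + m) p r := by
  induction h2 with
  | zero q => exact h1
  | succ _ hd ih => exact (ih h1).succ hd

theorem Ch.exists_seq {n : ℕ} {p q : Y} (h1 : Ch h δ n p q) :
    ∃ w : ℕ → Y, w 0 = p ∧ w n = q ∧ ∀ i < n, dist (h (w i)) (w (i + 1)) < δ := by
  induction h1 with
  | zero p => exact ⟨fun _ => p, rfl, rfl, fun i hi => absurd hi (Nat.not_lt_zero i)⟩
  | @succ n p q r _ hd ih =>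
    obtain ⟨w, h0, hn, hw⟩ := ih
    refine ⟨fun i => if i ≤ n then w i else r, ?_, ?_, ?_⟩
    · simp only
      rw [if_pos (Nat.zero_le n), h0]
    · simp only
      rw [if_neg (by omega)]
    · intro i hi
      simp only
      rw [if_pos (by omega : i ≤ n)]
      rcases Nat.lt_or_ge i n with h3 | h3
      · rw [if_pos (by omega : i + 1 ≤ n)]
        exact hw i h3
      · have h4 : i = n := by omega
        subst h4
        rw [if_neg (by omega), hn]
        exact hd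

theorem Ch.orbit (hδ : 0 < δ) (n : ℕ) (p : Y) : Ch h δ n p (h^[n] p) := by
  induction n with
  | zero => exact Ch.zero p
  | succ n ih =>
    refine ih.succ ?_
    rw [Function.iterate_succ_apply', dist_self]
    exact hδ

theorem Ch.jump (hδ : 0 < δ) {M : ℕ} (hM : 1 ≤ M) {a b : Y} (ha : h^[M] a = a)
    (hab : dist a b < δ) : Ch h δ M a b := by
  obtain ⟨k, rfl⟩ : ∃ k, M = k + 1 := ⟨M - 1, by omega⟩
  refine (Ch.orbit hδ k a).succ ?_
  rw [← Function.iterate_succ_apply' h, ha]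
  exact hab

theorem Ch.pad (hδ : 0 < δ) {M : ℕ} (hM : 1 ≤ M) {a b : Y} (ha : h^[M] a = a) {n t : ℕ}
    (hnt : n ≤ t) (h1 : Ch h δ (n * M) a b) : Ch h δ (t * M) a b := by
  induction hnt with
  | refl => exact h1
  | @step t _ ih =>
    have h2 := (Ch.jump hδ hM ha (by rw [dist_self]; exact hδ) : Ch h δ M a a).trans ih
    have h3 : M + t * M = (t + 1) * M := by ring
    rw [h3] at h2
    exact h2

omit [MetricSpace Y] in
theorem common_period (J : Set Y) (hJ : J.Finite) (hp : ∀ a ∈ J, ∃ m : ℕ, 1 ≤ m ∧ h^[m] a = a) :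
    ∃ M : ℕ, 1 ≤ M ∧ ∀ a ∈ J, h^[M] a = a := by
  induction J, hJ using Set.Finite.induction_on with
  | empty => exact ⟨1, le_rfl, fun a ha => absurd ha (Set.notMem_empty a)⟩
  | @insert a s _ _ ih =>
    obtain ⟨M, hM, h1⟩ := ih fun b hb => hp b (Set.mem_insert_of_mem a hb)
    obtain ⟨m, hm, h2⟩ := hp a (Set.mem_insert a s)
    refine ⟨m * M, Nat.one_le_iff_ne_zero.2 (Nat.mul_ne_zero (by omega) (by omega)), ?_⟩
    intro b hb
    rcases Set.mem_insert_iff.1 hb with rfl | hb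
    · exact Function.IsPeriodicPt.mul_const (show Function.IsPeriodicPt h m b from h2) M
    · exact Function.IsPeriodicPt.const_mul
        (show Function.IsPeriodicPt h M b from h1 b hb) m

end

/-- EX1. -/
theorem ex1 : S_EX1.{w} := by
  intro Y _ _ _ h hdense δ hδ
  -- a finite cover by balls with periodic centres
  obtain ⟨J, hJsub, hJfin, hJcov⟩ := isCompact_univ.elim_finite_subcover_image
    (b := {p : Y | ∃ m : ℕ, 1 ≤ m ∧ h^[m] p = p}) (c := fun a => ball a (δ / 2))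
    (fun _ _ => isOpen_ball) (by
      intro y _
      obtain ⟨a, ha, hya⟩ := hdense.exists_dist_lt y (half_pos hδ)
      exact Set.mem_iUnion₂.2 ⟨a, ha, mem_ball.2 hya⟩)
  have hnear : ∀ y : Y, ∃ a ∈ J, dist y a < δ / 2 := by
    intro y
    obtain ⟨a, ha, hya⟩ := Set.mem_iUnion₂.1 (hJcov (Set.mem_univ y))
    exact ⟨a, ha, mem_ball.1 hya⟩
  obtain ⟨M, hM, hper⟩ := common_period (h := h) J hJfin fun a ha => hJsub ha
  -- connectedness
  have hconn : ∀ a ∈ J, ∀ b ∈ J, ∃ n : ℕ, Ch h δ (n * M) a b := by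
    intro a ha b hb
    by_contra hcon
    have hU : IsOpen (⋃ c ∈ {c | c ∈ J ∧ ∃ n : ℕ, Ch h δ (n * M) a c}, ball c (δ / 2)) :=
      isOpen_biUnion fun _ _ => isOpen_ball
    have hV : IsOpen (⋃ c ∈ {c | c ∈ J ∧ ¬ ∃ n : ℕ, Ch h δ (n * M) a c}, ball c (δ / 2)) :=
      isOpen_biUnion fun _ _ => isOpen_ball
    obtain ⟨y, -, hy1, hy2⟩ := (isPreconnected_univ (α := Y)) _ _ hU hV (by
      intro y _
      obtain ⟨c, hc, hyc⟩ := hnear y
      by_cases h1 : ∃ n : ℕ, Ch h δ (n * M) a c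
      · exact Or.inl (Set.mem_iUnion₂.2 ⟨c, ⟨hc, h1⟩, mem_ball.2 hyc⟩)
      · exact Or.inr (Set.mem_iUnion₂.2 ⟨c, ⟨hc, h1⟩, mem_ball.2 hyc⟩))
      ⟨a, Set.mem_univ a, Set.mem_iUnion₂.2 ⟨a, ⟨ha, 0, by rw [zero_mul]; exact Ch.zero a⟩,
        mem_ball_self (half_pos hδ)⟩⟩
      ⟨b, Set.mem_univ b, Set.mem_iUnion₂.2 ⟨b, ⟨hb, hcon⟩, mem_ball_self (half_pos hδ)⟩⟩
    obtain ⟨c, ⟨hc, n, hn⟩, hyc⟩ := Set.mem_iUnion₂.1 hy1
    obtain ⟨d, ⟨hd, hdn⟩, hyd⟩ := Set.mem_iUnion₂.1 hy2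
    apply hdn
    refine ⟨n + 1, ?_⟩
    have hcd : dist c d < δ := by
      have h1 := mem_ball.1 hyc
      have h2 := mem_ball.1 hyd
      have h3 := dist_triangle_left c d y
      linarith
    have h4 := hn.trans (Ch.jump hδ hM (hper c hc) hcd)
    have h5 : n * M + M = (n + 1) * M := by ring
    rw [h5] at h4
    exact h4
  -- uniform number of steps
  obtain ⟨t₀, ht₀⟩ : ∃ t₀ : ℕ, ∀ t ≥ t₀, ∀ a ∈ J, ∀ b ∈ J, Ch h δ (t * M) a b := by
    rw [← eventually_atTop]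
    refine (eventually_all_finite hJfin).2 fun a ha => (eventually_all_finite hJfin).2
      fun b hb => ?_
    obtain ⟨n, hn⟩ := hconn a ha b hb
    exact eventually_atTop.2 ⟨n, fun t ht => hn.pad hδ hM (hper a ha) ht⟩
  refine ⟨1 + (t₀ + 1) * M, fun m hm p q => ?_⟩
  apply Ch.exists_seq
  -- decomposition of `m`
  obtain ⟨t, r, ht, hmr⟩ : ∃ t r : ℕ, t₀ ≤ t ∧ m = 1 + t * M + M + r := by
    refine ⟨t₀, m - (1 + (t₀ + 1) * M), le_rfl, ?_⟩
    have h5 : (t₀ + 1) * M = t₀ * M + M := by ring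
    omega
  obtain ⟨a, ha, hpa⟩ := hnear (h p)
  obtain ⟨b, hb, hqb⟩ := hnear (h.symm^[r] q)
  have e1 : Ch h δ 1 p a := (Ch.zero p).succ (by linarith)
  have e2 : Ch h δ (t * M) a b := ht₀ t ht a ha b hb
  have e3 : Ch h δ M b (h.symm^[r] q) := Ch.jump hδ hM (hper b hb) (by
    rw [dist_comm]
    linarith)
  have e4 : Ch h δ r (h.symm^[r] q) q := by
    have h6 := Ch.orbit (h := h) hδ r (h.symm^[r] q)
    have h7 : h^[r] (h.symm^[r] q) = q :=
      (Function.LeftInverse.iterate (f := h.symm) (g := h) h.apply_symm_apply r) q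
    rw [h7] at h6
    exact h6
  rw [hmr]
  exact ((e1.trans e2).trans e3).trans e4

end Pool.Agent.W366.SC
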